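import Mathlib
import Pool.Agent.H447R2.ML.R5
import Pool.Agent.H447R2.ML.Spec

set_option autoImplicit false

/-!
# Decimal repunits and the first `p` decimal digits of almost every real number

For real `β > 0` and a prime `p` let `W β p` be the `p`-rough part (the product, with multiplicity,
of the prime factors larger than `p`) of the largest integer below `β * 10 ^ p`, the integer formed
by the first `p` decimal digits of `β` (for `0 < β ≤ 1`, non-terminating expansion).  For
`β = 1 / 9 = 0.111...` this is the repunit `R_p` itself, for every prime `p ≠ 3`.  Let `N β n` be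
the number of primes `p ≤ n` with `W β p` prime.  We prove that the mean of `N β n` over every
window of `β` is asymptotic to `(e ^ γ / log 10) log n`, and that for almost every `β > 0` we have
`liminf N β n / log n ≤ e ^ γ / log 10 ≤ limsup N β n / log n`; in particular infinitely many of the
integers `W β p` are prime.
-/

namespace Pool.Agent.Results.MP_adea1b_nt.DecimalDigits

open Filter Topology MeasureTheory

/-- The product, with multiplicity, of the prime factors of `m` that are larger than `p`. -/
def roughPart (p m : ℕ) : ℕ := (m.primeFactorsList.filter (fun r => p < r)).prod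

/-- The `p`-rough part of the largest integer below `β * 10 ^ p`. -/
noncomputable def W (β : ℝ) (p : ℕ) : ℕ := roughPart p (⌈β * 10 ^ p⌉₊ - 1)

/-- The number of primes `p ≤ n` for which `W β p` is prime. -/
noncomputable def N (β : ℝ) (n : ℕ) : ℕ :=
  ((Finset.range (n + 1)).filter (fun p => p.Prime ∧ (W β p).Prime)).card

/-- The values at `β = 1 / 9` are the repunits; the mean of the counting function over the
amplitudes and the almost everywhere statement, with the base `10` fixed. -/
theorem result :
    (∀ p : ℕ, p.Prime → p ≠ 3 → W (1 / 9) p = ∑ i ∈ Finset.range p, 10 ^ i) ∧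
    (∀ s t : ℝ, s < t → Tendsto (fun n : ℕ =>
        (∫ u in s..t, (N (Real.exp u) n : ℝ)) / ((t - s) * Real.log n)) atTop
        (𝓝 (Real.exp Real.eulerMascheroniConstant / Real.log 10))) ∧
    (∀ᵐ β : ℝ, 0 < β →
      (∀ c : ℝ, c < Real.exp Real.eulerMascheroniConstant / Real.log 10 →
        ∃ᶠ n : ℕ in atTop, c * Real.log n < N β n) ∧
      (∀ c : ℝ, Real.exp Real.eulerMascheroniConstant / Real.log 10 < c →
        ∃ᶠ n : ℕ in atTop, (N β n : ℝ) < c * Real.log n)) := by
  have key := Pool.Agent.H447R2.ML.shift_ceil (α := 10) (κ := 1) (C := 1) (g := fun _ => 0)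
    (by norm_num) (by norm_num) (by norm_num) (by intro p; simp)
  have hM : ∀ (x : ℝ) (n : ℕ),
      Pool.Agent.H447R2.ML.cc (fun p x => x * 10 ^ p + 0) x n = N x n := by
    intro x n
    unfold Pool.Agent.H447R2.ML.cc N W
    simp only [add_zero]
    rfl
  simp only [hM] at key
  refine ⟨fun p hp h3 => ?_, key⟩
  have hpd : ¬ (p : ℤ) ∣ (10 : ℤ) - 1 := by
    intro h
    have h1 : p ∣ 9 := by
      have : (10 : ℤ) - 1 = ((9 : ℕ) : ℤ) := by norm_num
      rw [this] at h
      exact Int.natCast_dvd_natCast.1 h
    have h2 : p ∣ 3 := by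
      have : p ∣ 3 ^ 2 := by simpa using h1
      exact hp.dvd_of_dvd_pow this
    exact h3 ((Nat.prime_dvd_prime_iff_eq hp Nat.prime_three).1 h2)
  set R := ∑ i ∈ Finset.range p, 10 ^ i with hR
  have hgeo : R * 9 + 1 = 10 ^ p := by
    have h1 := Nat.geomSum_eq (m := 10) (by norm_num) p
    have h2 : 9 ∣ 10 ^ p - 1 := by
      have := Nat.sub_dvd_pow_sub_pow 10 1 p
      simpa using this
    have h3 : 1 ≤ 10 ^ p := Nat.one_le_pow _ _ (by norm_num)
    rw [hR, h1]
    omega
  have hgeo' : (R : ℝ) * 9 + 1 = 10 ^ p := by exact_mod_cast hgeo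
  have h := Pool.Agent.H447R2.ML.rough_quot (a := 10) (b := 1) (by norm_num) (by norm_num)
    (by norm_num) hp hpd (x := (R : ℝ)) (by push_cast; rw [one_pow]; linarith)
  rw [Nat.floor_natCast] at h
  have h4 : W (1 / 9) p = Pool.Agent.H305R2.roughPart p R := by
    have h6 : ⌈(1 / 9 : ℝ) * 10 ^ p⌉₊ = R + 1 := by
      rw [Nat.ceil_eq_iff (Nat.succ_ne_zero _), ← hgeo']
      constructor
      · push_cast [Nat.add_sub_cancel]
        linarith
      · push_cast
        linarith
    unfold W
    rw [h6, Nat.add_sub_cancel]
    rfl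
  rw [← h4] at h
  have h5 : ((W (1 / 9) p : ℕ) : ℤ) = ((R : ℕ) : ℤ) := by
    rw [h, hR]
    push_cast
    refine Finset.sum_congr rfl fun i _ => ?_
    rw [one_pow, mul_one]
  exact_mod_cast h5

end Pool.Agent.Results.MP_adea1b_nt.DecimalDigits
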