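import Mathlib
import Pool.Agent.H937.LocalAB

set_option autoImplicit false

/-!
# Repunit primes in the mean over real bases near ten
-/

namespace Pool.Agent.Results.MP_adea1b_nt.LocalBases

open Filter Topology MeasureTheory

/-- The product, with multiplicity, of the prime factors of `m` that are larger than `p`. -/
def roughPart (p m : ℕ) : ℕ := (m.primeFactorsList.filter (fun r => p < r)).prod

/-- The `p`-rough part of the integer part of `(x ^ p - 1) / 9`. -/
noncomputable def W (x : ℝ) (p : ℕ) : ℕ := roughPart p ⌊(x ^ p - 1) / 9⌋₊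

/-- The number of primes `p ≤ n` for which `W x p` is prime. -/
noncomputable def N (x : ℝ) (n : ℕ) : ℕ :=
  ((Finset.range (n + 1)).filter (fun p => p.Prime ∧ (W x p).Prime)).card

lemma W_eq (x : ℝ) (p : ℕ) : W x p = Pool.Agent.H937.W 10 1 x p := by
  unfold W Pool.Agent.H937.W
  have e : (x ^ p - (((1 : ℤ) : ℝ)) ^ p) / (((10 : ℤ) : ℝ) - ((1 : ℤ) : ℝ)) = (x ^ p - 1) / 9 := by
    norm_num
  rw [e]
  rfl

lemma N_eq (x : ℝ) (n : ℕ) : N x n = Pool.Agent.H937.M 10 1 x n := by
  unfold N Pool.Agent.H937.M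
  simp only [W_eq]

/-- Repunit primes in the mean near the base ten. -/
theorem result :
    (∀ p : ℕ, p.Prime → p ≠ 3 → W 10 p = ∑ i ∈ Finset.range p, 10 ^ i) ∧
    (∀ u v : ℕ → ℝ, Tendsto u atTop (𝓝 (Real.log 10)) → Tendsto v atTop (𝓝 (Real.log 10)) →
      (∀ p, u p < v p) → Tendsto (fun p : ℕ => (p : ℝ) * (v p - u p)) atTop atTop →
      Tendsto (fun p : ℕ =>
        (volume {τ : ℝ | τ ∈ Set.Ioc (u p) (v p) ∧ (W (Real.exp τ) p).Prime}).toReal /
          (v p - u p) * (p / Real.log p)) atTop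
        (𝓝 (Real.exp Real.eulerMascheroniConstant / Real.log 10))) ∧
    (∀ u v : ℕ → ℝ, Tendsto u atTop (𝓝 (Real.log 10)) → Tendsto v atTop (𝓝 (Real.log 10)) →
      (∀ n, u n < v n) → Tendsto (fun n : ℕ => (v n - u n) * Real.log n) atTop atTop →
      Tendsto (fun n : ℕ => (∫ τ in (u n)..(v n), (N (Real.exp τ) n : ℝ)) /
        ((v n - u n) * Real.log n)) atTop
        (𝓝 (Real.exp Real.eulerMascheroniConstant / Real.log 10))) := by
  have hk : Pool.Agent.H937.kap 1 < Real.log 10 := by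
    have := Pool.Agent.H937.kap_lt (a := 10) (b := 1) (by norm_num) (by norm_num) (by norm_num)
    exact_mod_cast this
  refine ⟨fun p hp hp3 => ?_, fun u v hu hv huv hw => ?_, fun u v hu hv huv hw => ?_⟩
  · have hpd : ¬ (p : ℤ) ∣ (10 : ℤ) - 1 := by
      intro h
      have h1 : p ∣ 3 ^ 2 := by
        have h2 : (p : ℤ) ∣ ((3 ^ 2 : ℕ) : ℤ) := by
          have e : (10 : ℤ) - 1 = ((3 ^ 2 : ℕ) : ℤ) := by norm_num
          rwa [e] at h
        exact_mod_cast h2
      exact hp3 ((Nat.prime_dvd_prime_iff_eq hp Nat.prime_three).1 (hp.dvd_of_dvd_pow h1))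
    have h := Pool.Agent.H937.W_special (a := 10) (b := 1) (by norm_num) (by norm_num)
      (by norm_num) hp hpd
    have e : ((((10 : ℤ)) : ℝ)) = (10 : ℝ) := by norm_num
    rw [e, ← W_eq] at h
    simp only [one_pow, mul_one] at h
    exact_mod_cast h
  · simp only [W_eq]
    exact Pool.Agent.H937.local_AB (by norm_num) hk hu hv huv hw
  · simp only [N_eq]
    exact Pool.Agent.H937.mean_AB (by norm_num) hk hu hv huv hw

end Pool.Agent.Results.MP_adea1b_nt.LocalBases
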