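import Mathlib
import Pool.Agent.H447R2.ML.P9
import Pool.Agent.H447R2.ML.Spec

set_option autoImplicit false

/-!
# Repunit primes in almost every real base

For a real base `x > 1` and a prime `p` let `W x p` be the `p`-rough part (the product, with
multiplicity, of the prime factors larger than `p`) of the integer part of the repunit
`(x ^ p - 1) / (x - 1) = 1 + x + ... + x ^ (p - 1)`.  For `x = 10` this is the decimal repunit
`R_p` itself for every prime `p ≠ 3`.  We prove that for almost every real `x > 1` the number
`N x n` of primes `p ≤ n` with `W x p` prime satisfies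
`liminf N x n / log n ≤ e ^ γ / log x ≤ limsup N x n / log n`.
-/

namespace Pool.Agent.Results.MP_adea1b_nt.RealBaseRepunits

open Filter Topology MeasureTheory

/-- The product, with multiplicity, of the prime factors of `m` that are larger than `p`. -/
def roughPart (p m : ℕ) : ℕ := (m.primeFactorsList.filter (fun r => p < r)).prod

/-- The `p`-rough part of the integer part of the repunit `(x ^ p - 1) / (x - 1)`. -/
noncomputable def W (x : ℝ) (p : ℕ) : ℕ := roughPart p ⌊(x ^ p - 1) / (x - 1)⌋₊

/-- The number of primes `p ≤ n` for which `W x p` is prime. -/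
noncomputable def N (x : ℝ) (n : ℕ) : ℕ :=
  ((Finset.range (n + 1)).filter (fun p => p.Prime ∧ (W x p).Prime)).card

/-- The metric theorem, together with the identification of the values in base ten. -/
theorem result :
    (∀ p : ℕ, p.Prime → p ≠ 3 → W 10 p = ∑ i ∈ Finset.range p, 10 ^ i) ∧
    (∀ᵐ x : ℝ, 1 < x →
      (∀ c : ℝ, c < Real.exp Real.eulerMascheroniConstant / Real.log x →
        ∃ᶠ n : ℕ in atTop, c * Real.log n < N x n) ∧
      (∀ c : ℝ, Real.exp Real.eulerMascheroniConstant / Real.log x < c →
        ∃ᶠ n : ℕ in atTop, (N x n : ℝ) < c * Real.log n)) := by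
  constructor
  · intro p hp h3
    have hpd : ¬ (p : ℤ) ∣ (10 : ℤ) - 1 := by
      intro h
      have h1 : p ∣ 9 := by
        have : (10 : ℤ) - 1 = ((9 : ℕ) : ℤ) := by norm_num
        rw [this] at h
        exact Int.natCast_dvd_natCast.1 h
      have h2 : p ∣ 3 := by
        have : p ∣ 3 ^ 2 := by simpa using h1
        exact hp.dvd_of_dvd_pow this
      exact h3 ((Nat.prime_dvd_prime_iff_eq hp Nat.prime_three).1 h2)
    have h := Pool.Agent.H447R2.ML.rough_quot (a := 10) (b := 1) (by norm_num) (by norm_num)
      (by norm_num) hp hpd (x := ((10 : ℝ) ^ p - 1) / (10 - 1)) (by push_cast; ring)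
    have h4 : ((W 10 p : ℕ) : ℤ) = ∑ i ∈ Finset.range p, (10 : ℤ) ^ i * 1 ^ (p - 1 - i) := h
    have h5 : ((W 10 p : ℕ) : ℤ) = ((∑ i ∈ Finset.range p, 10 ^ i : ℕ) : ℤ) := by
      rw [h4]
      push_cast
      refine Finset.sum_congr rfl fun i _ => ?_
      rw [one_pow, mul_one]
    exact_mod_cast h5
  · refine Pool.Agent.H447R2.ML.one_param_val (val := fun p x => (x ^ p - 1) / (x - 1))
      (y' := fun p t => p * Real.exp (p * t) / (Real.exp (p * t) + (-1)) +
        (-(Real.exp t / (Real.exp t - 1)))) ?_ ?_ ?_
    · intro p
      exact ((measurable_id.pow_const p).sub_const 1).div (measurable_id.sub_const 1)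
    · intro p hp x hx
      have h1 : 1 < x ^ p := one_lt_pow₀ hx (by omega)
      exact div_pos (by linarith) (by linarith)
    · have hne : ∀ t : ℝ, 0 < t → 0 < Real.exp t - 1 := by
        intro t ht
        have := Real.add_one_lt_exp ht.ne'
        linarith
      refine Pool.Agent.H447R2.ML.fam_of (ε := -1) (by norm_num)
        (H := fun t => -Real.log (Real.exp t - 1)) ?_ ?_ ?_
      · intro t ht
        exact ((((Real.hasDerivAt_exp t).sub_const 1).log (hne t ht).ne').neg)
      · refine ContinuousOn.neg (ContinuousOn.div (by fun_prop) (by fun_prop) ?_)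
        intro t ht
        exact (hne t ht).ne'
      · intro p hp t ht
        have hp0 : (0 : ℝ) < p := by exact_mod_cast hp
        have h1 := hne t ht
        have h2 := hne (p * t) (by positivity)
        have e : Real.exp t ^ p = Real.exp (p * t) := (Real.exp_nat_mul t p).symm
        rw [e, Real.log_div h2.ne' h1.ne', sub_eq_add_neg (Real.exp (p * t)) 1]
        ring

end Pool.Agent.Results.MP_adea1b_nt.RealBaseRepunits
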